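import Pool.Agent.Run7.h136.G3.Calc

/-!
# The triple of a point and its height
-/

set_option autoImplicit false

namespace Run7.h136.G3

open Polynomial Run7.h929.G2 Run7.h929.G3

/-! ### Ideals -/

section ideals
variable {K : Type} [Field K] {g : K[X]}

theorem MI_congr {u V V' : K[X]} (h : u ∣ V - V') : MI g u V = MI g u V' := by
  obtain ⟨c, hc⟩ := h
  rw [MI, MI]
  exact pair_congr _ _ _ _ (io g c) (by rw [← map_sub, hc, map_mul])

theorem MI_unit {c : K} (hc : c ≠ 0) (u V : K[X]) : MI g (C c * u) V = MI g u V := by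
  have e : (C c⁻¹ * C c : K[X]) = 1 := by rw [← C_mul, inv_mul_cancel₀ hc, C_1]
  have e' := congrArg (io g) e
  rw [map_mul, map_one] at e'
  rw [MI, MI]
  apply le_antisymm
  · exact pair_le (comb2 (pl (io g u) (yy g - io g V)) (pr (io g u) (yy g - io g V))
      (io g (C c)) 0 (by rw [map_mul]; ring)) (pr _ _)
  · refine pair_le (comb2 (pl (io g (C c * u)) (yy g - io g V))
      (pr (io g (C c * u)) (yy g - io g V)) (io g (C c⁻¹)) 0 ?_) (pr _ _)
    rw [map_mul]
    linear_combination (-(io g u)) * e'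

theorem yy_sub_ne (T : K[X]) : yy g - io g T ≠ 0 := by
  intro h
  have := congrArg QuadraticAlgebra.im h
  simp [yy, io] at this

theorem red_same {U T W : K[X]} (h : g = T ^ 2 + U * W) (hW : W ≠ 0) :
    Same (MI g W (-T)) (MI g U T) := by
  have e2 := congrArg (io g) h
  simp only [map_add, map_mul, map_pow] at e2
  refine Same.symm ⟨io g W, yy g - io g T, ?_, yy_sub_ne T, ?_⟩
  · intro h0
    apply hW
    apply io_inj (g := g)
    rw [h0, map_zero]
  · rw [MI, MI, single_mul_pair, single_mul_pair, map_neg, sub_neg_eq_add]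
    have e3 : (yy g - io g T) * (yy g + io g T) = io g W * io g U := by
      linear_combination yy_sq (g := g) + e2
    rw [e3, mul_comm (yy g - io g T) (io g W), Set.pair_comm]

theorem MI_cube {u V T : K[X]} (h2 : (2 : K) ≠ 0) (hc : IsCoprime u V) (hT : u ∣ T - V)
    (h : u ^ 3 ∣ g - T ^ 2) : MI g (u ^ 3) T = MI g u V ^ 3 := by
  rw [← MI_congr hT]
  have hcT : IsCoprime u T := by
    obtain ⟨c, hc'⟩ := hT
    have : T = V + u * c := by linear_combination hc'
    rw [this]
    exact (IsCoprime.add_mul_left_right_iff).2 hc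
  obtain ⟨α, β, hαβ⟩ := hcT
  obtain ⟨w, hw⟩ := h
  have e1 : io g (α) * io g u + io g (C (1 / 2) * β) * (2 * io g T) = 1 := by
    have : α * u + C (1 / 2) * β * (2 * T) = 1 := by
      have e : (C (1 / 2) : K[X]) * 2 = 1 := by
        have e : (2 : K[X]) = C 2 := rfl
        rw [e, ← C_mul, one_div, inv_mul_cancel₀ h2, C_1]
      linear_combination hαβ + β * T * e
    have := congrArg (io g) this
    simpa only [map_add, map_mul, map_one, map_ofNat] using this
  have e2 : yy g * yy g = io g T * io g T + io g u * io g u * (io g u * io g w) := by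
    have h3 : g = T ^ 2 + u ^ 3 * w := by linear_combination hw
    have := congrArg (io g) h3
    simp only [map_add, map_mul, map_pow] at this
    rw [yy_sq, this]
    ring
  have h3 := pair_sq (io g u) (io g T) (io g u * io g w) (yy g) _ _ e2 e1
  rw [show MI g u T ^ 3 = MI g u T ^ 2 * MI g u T from pow_succ _ 2, MI, MI, h3]
  symm
  apply le_antisymm
  · apply pair_mul_le
    · have : io g u * io g u * io g u = io g (u ^ 3) := by rw [map_pow]; ring
      rw [this]
      exact pl _ _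
    · exact Ideal.mul_mem_left _ _ (pr _ _)
    · exact Ideal.mul_mem_right _ _ (pr _ _)
    · exact Ideal.mul_mem_left _ _ (pr _ _)
  · have h1 := Ideal.mul_mem_mul (pl (io g u * io g u) (yy g - io g T))
      (pl (io g u) (yy g - io g T))
    have h2 := Ideal.mul_mem_mul (pr (io g u * io g u) (yy g - io g T))
      (pl (io g u) (yy g - io g T))
    have h4 := Ideal.mul_mem_mul (pr (io g u * io g u) (yy g - io g T))
      (pr (io g u) (yy g - io g T))
    refine pair_le ?_ ?_
    · have : io g (u ^ 3) = io g u * io g u * io g u := by rw [map_pow]; ring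
      rw [this]
      exact h1
    · refine comb3 h1 h2 h4 (io g (C (1 / 2) * β) * io g w) (io g α)
        (-(io g (C (1 / 2) * β))) ?_
      linear_combination (-(yy g - io g T)) * e1 + io g (C (1 / 2) * β) * e2

end ideals

/-! ### The levels of the calculus -/

/-- the next level -/
noncomputable def ph (N : ℕ) : ℕ := (calcS N).choose

theorem le_ph (N : ℕ) : N ≤ ph N := (calcS N).choose_spec.1

section lev
variable {K : Type} [Field K] [NumberField K] {Z : ℝ} {N : ℕ} {p q : K[X]}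

theorem lv_up (hZ : Real.log 2 * Module.finrank ℚ K ≤ Z) (hp : PB Z N p) : PB Z (ph N) p :=
  pb_mono (hZ0 hZ) hp (le_ph N)

theorem lv_add (hZ : Real.log 2 * Module.finrank ℚ K ≤ Z) (hp : PB Z N p) (hq : PB Z N q) :
    PB Z (ph N) (p + q) := ((calcS N).choose_spec.2 K Z hZ p q hp hq).1

theorem lv_mul (hZ : Real.log 2 * Module.finrank ℚ K ≤ Z) (hp : PB Z N p) (hq : PB Z N q) :
    PB Z (ph N) (p * q) := ((calcS N).choose_spec.2 K Z hZ p q hp hq).2.1

theorem lv_sub (hZ : Real.log 2 * Module.finrank ℚ K ≤ Z) (hp : PB Z N p) (hq : PB Z N q) :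
    PB Z (ph N) (p - q) := by
  rw [sub_eq_add_neg]
  exact lv_add hZ hp (pb_neg hq)

theorem lv_lead (hZ : Real.log 2 * Module.finrank ℚ K ≤ Z) (hp : PB Z N p) (hq : PB Z N q) :
    PB Z (ph N) (C q.leadingCoeff⁻¹ * p) := ((calcS N).choose_spec.2 K Z hZ p q hp hq).2.2.2.1

theorem lv_div (hZ : Real.log 2 * Module.finrank ℚ K ≤ Z) (hp : PB Z N p) (hq : PB Z N q)
    (hm : q.Monic) : PB Z (ph N) (p /ₘ q) :=
  (((calcS N).choose_spec.2 K Z hZ p q hp hq).2.2.2.2.1 hm).1

theorem lv_mod (hZ : Real.log 2 * Module.finrank ℚ K ≤ Z) (hp : PB Z N p) (hq : PB Z N q)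
    (hm : q.Monic) : PB Z (ph N) (p %ₘ q) :=
  (((calcS N).choose_spec.2 K Z hZ p q hp hq).2.2.2.2.1 hm).2

theorem lv_inv (hZ : Real.log 2 * Module.finrank ℚ K ≤ Z) (hp : PB Z N p) (hq : PB Z N q)
    (hm : q.Monic) (h2 : q.natDegree = 2) (hc : IsCoprime q p) :
    ∃ s, PB Z (ph N) s ∧ q ∣ s * p - 1 :=
  ((calcS N).choose_spec.2 K Z hZ p q hp hq).2.2.2.2.2 hm h2 hc

end lev

theorem mul_divBy {K : Type} [Field K] {p q : K[X]} (h : q ∣ p) (hm : q.Monic) :
    q * (p /ₘ q) = p := by
  have h1 := modByMonic_add_div p q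
  rw [(modByMonic_eq_zero_iff_dvd hm).2 h, zero_add] at h1
  exact h1

/-- the reduction step -/
theorem red_step (N : ℕ) : ∃ M : ℕ, ∀ (K : Type) [Field K] [NumberField K] (Z : ℝ),
    Real.log 2 * Module.finrank ℚ K ≤ Z → ∀ g U T : K[X], g.natDegree = 5 → PB Z N g → PB Z N U →
      PB Z N T → U.Monic → U ∣ g - T ^ 2 → ∃ U' T' : K[X], U'.Monic ∧ T'.degree < U'.degree ∧
        U' ∣ g - T' ^ 2 ∧ Same (MI g U' T') (MI g U T) ∧ PB Z M U' ∧ PB Z M T' ∧
        U.natDegree + U'.natDegree = (g - T ^ 2).natDegree := by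
  refine ⟨ph (ph (ph (ph (ph N)))), ?_⟩
  intro K _ _ Z hZ g U T hg hgN hU hT hm hd
  have hodd : Odd g.natDegree := by
    rw [hg]
    decide
  have := dom hodd
  have b1 : PB Z (ph N) (T * T) := lv_mul hZ hT hT
  have b2 : PB Z (ph (ph N)) (g - T ^ 2) := by
    rw [pow_two]
    exact lv_sub hZ (lv_up hZ hgN) b1
  set W := (g - T ^ 2) /ₘ U with hWdef
  have hUW : U * W = g - T ^ 2 := mul_divBy hd hm
  have b3 : PB Z (ph (ph (ph N))) W := lv_div hZ b2 (lv_up hZ (lv_up hZ hU)) hm
  have hne : g - T ^ 2 ≠ 0 := by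
    intro h0
    have h1 : g = T ^ 2 := sub_eq_zero.1 h0
    rw [h1, natDegree_pow] at hodd
    exact (Nat.not_odd_iff_even.2 (even_two_mul _)) hodd
  have hW0 : W ≠ 0 := by
    intro h0
    rw [h0, mul_zero] at hUW
    exact hne hUW.symm
  set U' := C W.leadingCoeff⁻¹ * W with hU'
  have hl : W.leadingCoeff⁻¹ ≠ 0 := inv_ne_zero (leadingCoeff_ne_zero.2 hW0)
  have hU'm : U'.Monic := by
    rw [Monic, hU', leadingCoeff_mul, leadingCoeff_C,
      inv_mul_cancel₀ (leadingCoeff_ne_zero.2 hW0)]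
  have b4 : PB Z (ph (ph (ph (ph N)))) U' := lv_lead hZ b3 b3
  have bT : PB Z (ph (ph (ph (ph N)))) (-T) :=
    lv_up hZ (lv_up hZ (lv_up hZ (lv_up hZ (pb_neg hT))))
  have b5 := lv_mod hZ bT b4 hU'm
  set T' := (-T) %ₘ U' with hT'
  have hTT : U' ∣ -T - T' := by
    have := modByMonic_add_div (-T) U'
    exact ⟨(-T) /ₘ U', by rw [hT']; linear_combination -this⟩
  have hWU : U' ∣ g - T ^ 2 := by
    rw [← hUW]
    apply dvd_mul_of_dvd_right
    refine ⟨C W.leadingCoeff, ?_⟩
    have : (C W.leadingCoeff⁻¹ * C W.leadingCoeff : K[X]) = 1 := by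
      rw [← C_mul, inv_mul_cancel₀ (leadingCoeff_ne_zero.2 hW0), C_1]
    rw [hU']
    linear_combination (-W) * this
  refine ⟨U', T', hU'm, degree_modByMonic_lt _ hU'm, ?_, ?_, lv_up hZ b4, b5, ?_⟩
  · have : g - T' ^ 2 = (g - T ^ 2) + (-T - T') * (-T + T') := by ring
    rw [this]
    exact dvd_add hWU (dvd_mul_of_dvd_left hTT _)
  · have h1 : g = T ^ 2 + U * W := by linear_combination -hUW
    have h2 := red_same h1 hW0
    rw [← MI_congr hTT, hU', MI_unit hl]
    exact h2
  · rw [← hUW, natDegree_mul hm.ne_zero hW0, hU', natDegree_C_mul hl]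

/-- Hensel's lemma -/
theorem hensel_step (N : ℕ) : ∃ M : ℕ, ∀ (K : Type) [Field K] [NumberField K] (Z : ℝ),
    Real.log 2 * Module.finrank ℚ K ≤ Z → ∀ g u V : K[X], PB Z N g → PB Z N u → PB Z N V →
      u.Monic → u.natDegree = 2 → V.natDegree ≤ 1 → IsCoprime u V → u ∣ g - V ^ 2 →
      ∃ T : K[X], PB Z M T ∧ PB Z M (u ^ 3) ∧ u ∣ T - V ∧ u ^ 3 ∣ g - T ^ 2 ∧ T.natDegree ≤ 5 := by
  let N1 := ph N
  let N2 := ph N1
  let N3 := ph N2
  let N4 := ph N3
  let N5 := ph N4
  let N6 := ph N5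
  let N7 := ph N6
  let N8 := ph N7
  let N9 := ph N8
  let N10 := ph N9
  let N11 := ph N10
  let N12 := ph N11
  let N13 := ph N12
  let N14 := ph N13
  refine ⟨N14, ?_⟩
  intro K _ _ Z hZ g u V hg hu hV hm h2 hV1 hc hd
  have hlt : ∀ p : K[X], (p %ₘ u).natDegree ≤ 1 := by
    intro p
    have := natDegree_modByMonic_lt p hm (by
      rintro rfl
      simp at h2)
    omega
  have hc2 : IsCoprime u (V + V) := by
    have : V + V = C 2 * V := by
      have e : (C 2 : K[X]) = 2 := rfl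
      rw [e]
      ring
    rw [this]
    exact (isCoprime_mul_unit_left_right (isUnit_C.2 (by norm_num : (2 : K) ≠ 0).isUnit) u V).2 hc
  obtain ⟨s, bs, k, hk⟩ := lv_inv hZ (lv_add hZ hV hV) (lv_up hZ hu) hm h2 hc2
  have u1 : PB Z N1 u := lv_up hZ hu
  have u2 : PB Z N2 u := lv_up hZ u1
  have u3 : PB Z N3 u := lv_up hZ u2
  have u4 : PB Z N4 u := lv_up hZ u3
  have u5 : PB Z N5 u := lv_up hZ u4
  have u6 : PB Z N6 u := lv_up hZ u5
  have u7 : PB Z N7 u := lv_up hZ u6
  have u8 : PB Z N8 u := lv_up hZ u7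
  have u9 : PB Z N9 u := lv_up hZ u8
  have u10 : PB Z N10 u := lv_up hZ u9
  have u11 : PB Z N11 u := lv_up hZ u10
  have uu5 : PB Z N5 (u * u) := lv_mul hZ u4 u4
  have uu6 : PB Z N6 (u * u) := lv_up hZ uu5
  have uu7 : PB Z N7 (u * u) := lv_up hZ uu6
  have uu8 : PB Z N8 (u * u) := lv_up hZ uu7
  have uu9 : PB Z N9 (u * u) := lv_up hZ uu8
  have uu10 : PB Z N10 (u * u) := lv_up hZ uu9
  have uu11 : PB Z N11 (u * u) := lv_up hZ uu10
  have uu12 : PB Z N12 (u * u) := lv_up hZ uu11
  have v6 : PB Z N6 V :=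
    lv_up hZ (lv_up hZ (lv_up hZ (lv_up hZ (lv_up hZ (lv_up hZ hV)))))
  have g8 : PB Z N8 g :=
    lv_up hZ (lv_up hZ (lv_up hZ (lv_up hZ (lv_up hZ (lv_up hZ (lv_up hZ (lv_up hZ hg)))))))
  have s10 : PB Z N10 s :=
    lv_up hZ (lv_up hZ (lv_up hZ (lv_up hZ (lv_up hZ (lv_up hZ (lv_up hZ (lv_up hZ bs)))))))
  have a1 : PB Z N2 (g - V ^ 2) := by
    rw [pow_two]
    exact lv_sub hZ (lv_up hZ hg) (lv_mul hZ hV hV)
  set W := (g - V ^ 2) /ₘ u with hW
  have hUW : u * W = g - V ^ 2 := mul_divBy hd hm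
  have a2 : PB Z N3 W := lv_div hZ a1 u2 hm
  have a3 : PB Z N4 (W * s) := lv_mul hZ a2 (lv_up hZ bs)
  set c1 := (W * s) %ₘ u with hc1
  have a4 : PB Z N5 c1 := lv_mod hZ a3 u4 hm
  have a5 : PB Z N6 (u * c1) := lv_mul hZ u5 a4
  have a6 : PB Z N7 (V + u * c1) := lv_add hZ v6 a5
  set V1 := V + u * c1 with hV1d
  have a7 : PB Z N8 (V1 * V1) := lv_mul hZ a6 a6
  have a8 : PB Z N9 (g - V1 ^ 2) := by
    rw [pow_two]
    exact lv_sub hZ g8 a7
  obtain ⟨r1, hr1⟩ : ∃ r1, W * s - c1 = u * r1 := by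
    have := modByMonic_add_div (W * s) u
    exact ⟨(W * s) /ₘ u, by rw [hc1]; linear_combination -this⟩
  have hdv : g - V1 ^ 2 = u * u * (2 * V * r1 - W * k - c1 ^ 2) := by
    rw [hV1d]
    linear_combination (-1) * hUW + 2 * V * u * hr1 - u * W * hk
  set W1 := (g - V1 ^ 2) /ₘ (u * u) with hW1
  have hUW1 : u * u * W1 = g - V1 ^ 2 := mul_divBy ⟨_, hdv⟩ (hm.mul hm)
  have a9 : PB Z N10 W1 := lv_div hZ a8 uu9 (hm.mul hm)
  have a10 : PB Z N11 (W1 * s) := lv_mul hZ a9 s10
  set c2 := (W1 * s) %ₘ u with hc2d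
  have a11 : PB Z N12 c2 := lv_mod hZ a10 u11 hm
  obtain ⟨r2, hr2⟩ : ∃ r2, W1 * s - c2 = u * r2 := by
    have := modByMonic_add_div (W1 * s) u
    exact ⟨(W1 * s) /ₘ u, by rw [hc2d]; linear_combination -this⟩
  have a12 : PB Z N13 (u * u * c2) := lv_mul hZ uu12 a11
  have a13 : PB Z N13 V1 :=
    lv_up hZ (lv_up hZ (lv_up hZ (lv_up hZ (lv_up hZ (lv_up hZ a6)))))
  refine ⟨V1 + u * u * c2, lv_add hZ a13 a12, ?_, ?_, ?_, ?_⟩
  · have e : u ^ 3 = u * u * u := by ring
    rw [e]
    exact lv_up hZ (lv_up hZ (lv_mul hZ (lv_up hZ uu10) u11))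
  · exact ⟨c1 + u * c2, by rw [hV1d]; ring⟩
  · refine ⟨2 * V * r2 - W1 * k - 2 * c1 * c2 - u * c2 ^ 2, ?_⟩
    have e : g - (V1 + u * u * c2) ^ 2 = (g - V1 ^ 2) - 2 * V1 * (u * u * c2) - (u * u * c2) ^ 2 := by
      ring
    rw [e, ← hUW1, hV1d]
    linear_combination 2 * V * u ^ 2 * hr2 - u ^ 2 * W1 * hk
  · have n1 : c1.natDegree ≤ 1 := hlt _
    have n2 : c2.natDegree ≤ 1 := hlt _
    have n3 : (u * c1).natDegree ≤ 3 := natDegree_mul_le.trans (by omega)
    have n4 : (u * u * c2).natDegree ≤ 5 :=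
      natDegree_mul_le.trans (by have := natDegree_mul_le (p := u) (q := u); omega)
    have n5 : V1.natDegree ≤ 3 := (natDegree_add_le _ _).trans (by omega)
    exact (natDegree_add_le _ _).trans (by omega)

/-! ### Heights of tuples -/

theorem logHeight_le_sum {K : Type} [Field K] [NumberField K] (k : Fin 4 → K) :
    Height.logHeight k ≤ ∑ i, Height.logHeight₁ (k i) := by
  let x : Fin 4 → Fin 2 → K := fun a => ![k a, 1]
  have hx : ∀ a, x a ≠ 0 := by
    intro a h
    have := congrFun h 1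
    simp [x] at this
  have h1 := Height.logHeight_fun_prod_eq (K := K) hx
  have h2 : k = (fun I : Fin 4 → Fin 2 => ∏ a, x a (I a)) ∘
      (fun i a => if a = i then 0 else 1) := by
    funext i
    simp only [Function.comp, x]
    rw [Finset.prod_eq_single i]
    · simp
    · intro b _ hb
      simp [hb]
    · intro h
      exact absurd (Finset.mem_univ i) h
  rw [h2]
  refine (Height.logHeight_comp_le _ _).trans ?_
  rw [h1]
  refine le_of_eq (Finset.sum_congr rfl fun i _ => ?_)
  rw [← h2, Height.logHeight₁_eq_logHeight]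

theorem logHeight₁_le {K : Type} [Field K] [NumberField K] (k : Fin 4 → K) (h0 : k 0 = 1)
    (i : Fin 4) : Height.logHeight₁ (k i) ≤ Height.logHeight k := by
  rw [Height.logHeight₁_eq_logHeight]
  have : ![k i, 1] = k ∘ ![i, 0] := by
    funext j
    fin_cases j <;> simp [h0]
  rw [this]
  exact Height.logHeight_comp_le _ _

/-- the height of the coordinates on the Kummer surface -/
theorem kc_bound {K : Type} [Field K] [NumberField K] {Z : ℝ} (M : ℕ)
    (hZ : Real.log 2 * Module.finrank ℚ K ≤ Z) {a : Fin 5 → K} {d : K} (ha : ∀ i, HB Z 1 (a i))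
    (hd : HB Z 1 d) {U V : K[X]} (hU : PB Z M U) (hV : PB Z M V) :
    Height.logHeight (kc a d U V) ≤ ((400 * (M + 1) : ℕ) : ℝ) * Z := by
  have hZ' := hZ0 hZ
  have key : ∀ i, HB Z (100 * (M + 1)) (kc a d U V i) := by
    have h0 : HB Z (100 * (M + 1)) (0 : K) := HB.zero hZ' _
    have h1 : HB Z (100 * (M + 1)) (1 : K) := HB.one hZ' _
    have c1 : HB Z M (-U.coeff 1) := HB.neg (hU.2 1)
    have c0 : HB Z M (U.coeff 0) := hU.2 0
    have v1 : HB Z M (V.coeff 1) := hV.2 1
    intro i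
    rw [kc]
    split_ifs
    · fin_cases i
      · exact h1
      · exact c1.mono hZ' (by omega)
      · exact c0.mono hZ' (by omega)
      · have e1 : HB Z (M + M + 1) (V.coeff 1 ^ 2 / d) := by
          rw [pow_two, div_eq_mul_inv]
          exact (v1.mul v1).mul hd.inv
        have e2 := (ha 2).add hZ ((ha 3).mul c1)
        have e3 := e2.add hZ ((ha 4).mul (c1.mul c1))
        have e4 := e3.add hZ (c1.mul ((c1.mul c1).sub hZ c0))
        have e5 := e1.sub hZ e4
        have e6 : V.coeff 1 ^ 2 / d - gg a (-U.coeff 1) (U.coeff 0) =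
            V.coeff 1 ^ 2 / d - (a 2 + a 3 * -U.coeff 1 + a 4 * (-U.coeff 1 * -U.coeff 1) +
              -U.coeff 1 * (-U.coeff 1 * -U.coeff 1 - U.coeff 0)) := by
          rw [gg]
          ring
        change HB Z (100 * (M + 1)) (V.coeff 1 ^ 2 / d - gg a (-U.coeff 1) (U.coeff 0))
        rw [e6]
        exact e5.mono hZ' (by omega)
    · fin_cases i
      · exact h0
      · exact h1
      · exact (HB.neg c0).mono hZ' (by omega)
      · change HB Z (100 * (M + 1)) (U.coeff 0 ^ 2)
        rw [pow_two]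
        exact (c0.mul c0).mono hZ' (by omega)
    · fin_cases i
      · exact h0
      · exact h0
      · exact h0
      · exact h1
  refine (logHeight_le_sum _).trans ?_
  have h3 : ∑ i, Height.logHeight₁ (kc a d U V i) ≤
      ∑ _i : Fin 4, ((100 * (M + 1) : ℕ) : ℝ) * Z := Finset.sum_le_sum fun i _ => key i
  refine h3.trans (le_of_eq ?_)
  rw [Finset.sum_const, Finset.card_univ, Fintype.card_fin, nsmul_eq_mul]
  push_cast
  ring

theorem hb_of_sq {K : Type} [Field K] [NumberField K] {Z : ℝ} {x : K} {n : ℕ}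
    (h : HB Z n (x ^ 2)) : HB Z n x := by
  rw [HB, Height.logHeight₁_pow] at h
  rw [HB]
  have := Height.zero_le_logHeight₁ x
  push_cast at h
  linarith

theorem tripleS : S_triple := by
  obtain ⟨M1, hM1⟩ := hensel_step 50
  obtain ⟨M2, hM2⟩ := red_step (M1 + 50)
  obtain ⟨M3, hM3⟩ := red_step (M2 + M1 + 50)
  refine ⟨400 * (M2 + M3 + 1), ?_⟩
  intro K _ _ a d hd hdis
  have h2 : (2 : K) ≠ 0 := two_ne_zero
  set C0 : ℝ := ∑ i, Height.logHeight₁ (a i) + Height.logHeight₁ d +
    Real.log 2 * Module.finrank ℚ K with hC0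
  refine ⟨((400 * (M2 + M3 + 1) : ℕ) : ℝ) * C0, ?_⟩
  intro u V hM hu2 hcop
  set g := rhs a d with hg
  have hg5 : g.natDegree = 5 := natDegree_rhs hd
  have hodd : Odd g.natDegree := by
    rw [hg5]
    decide
  have := dom hodd
  set h := Height.logHeight (kc a d u V) with hh
  have hh0 : 0 ≤ h := Height.logHeight_nonneg _
  have ha0 : ∀ i, 0 ≤ Height.logHeight₁ (a i) := fun i => Height.zero_le_logHeight₁ _
  have hd0 : 0 ≤ Height.logHeight₁ d := Height.zero_le_logHeight₁ _
  have hf0 : 0 ≤ Real.log 2 * Module.finrank ℚ K :=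
    mul_nonneg (Real.log_nonneg (by norm_num)) (Nat.cast_nonneg _)
  have hs0 : 0 ≤ ∑ i, Height.logHeight₁ (a i) := Finset.sum_nonneg fun i _ => ha0 i
  set Z := h + C0 with hZd
  have hZ : Real.log 2 * Module.finrank ℚ K ≤ Z := by
    rw [hZd, hC0]
    linarith
  have hZ' := hZ0 hZ
  have ha1 : ∀ i, HB Z 1 (a i) := by
    intro i
    have := Finset.single_le_sum (f := fun i => Height.logHeight₁ (a i)) (fun i _ => ha0 i)
      (Finset.mem_univ i)
    rw [HB, Nat.cast_one, one_mul, hZd, hC0]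
    linarith
  have hd1 : HB Z 1 d := by
    rw [HB, Nat.cast_one, one_mul, hZd, hC0]
    linarith
  have gB : PB Z 50 g := by
    refine ⟨by omega, fun i => ?_⟩
    change HB Z 50 (g.coeff i)
    by_cases hi : i < 5
    · have e : g.coeff i = d * a ⟨i, hi⟩ := by
        rw [hg, rhs, coeff_C_mul]
        congr 1
        exact coeff_quin a ⟨i, hi⟩
      rw [e]
      exact (hd1.mul (ha1 _)).mono hZ' (by omega)
    · by_cases hi5 : i = 5
      · have e : g.coeff i = d := by
          rw [hg, rhs, coeff_C_mul, hi5, coeff_quin_five, mul_one]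
        rw [e]
        exact hd1.mono hZ' (by omega)
      · rw [coeff_eq_zero_of_natDegree_lt (by omega)]
        exact HB.zero hZ' _
  have uvB : PB Z 50 u ∧ PB Z 50 V ∧ V.natDegree ≤ 1 := by
    rcases normal_form hd hM with ⟨hu, hV⟩ | ⟨x, y, hu, hV, hy⟩ |
      ⟨s, q, v1, v0, w2, w1, w0, hu, hV, ha⟩
    · rw [hu] at hu2
      simp at hu2
    · rw [hu, natDegree_X_sub_C] at hu2
      omega
    · have hk : kc a d u V = kv s q w2 w0 := by
        rw [hu, hV]
        conv_lhs => rw [ha]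
        exact kc_co hd s q v1 v0 w2 w1 w0
      have hk0 : kc a d u V 0 = 1 := by rw [hk]; rfl
      have hbk : ∀ i, HB Z 1 (kc a d u V i) := by
        intro i
        have h3 := logHeight₁_le (kc a d u V) hk0 i
        rw [HB, Nat.cast_one, one_mul, hZd]
        have : 0 ≤ C0 := by
          rw [hC0]
          linarith
        linarith
      have bs : HB Z 1 s := by
        have := hbk 1
        rw [hk] at this
        exact this
      have bq : HB Z 1 q := by
        have := hbk 2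
        rw [hk] at this
        exact this
      have bk : HB Z 1 (-(w0 + q * w2)) := by
        have := hbk 3
        rw [hk] at this
        exact this
      have e4 : a 4 = w2 - s := by
        have := congrFun ha 4
        simpa [co] using this
      have e3 : a 3 = w1 - s * w2 + q := by
        have := congrFun ha 3
        simpa [co] using this
      have e2 : a 2 = d * v1 ^ 2 + w0 - s * w1 + q * w2 := by
        have := congrFun ha 2
        simpa [co] using this
      have e0 : a 0 = d * v0 ^ 2 + q * w0 := by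
        have := congrFun ha 0
        simpa [co] using this
      have b2 : HB Z 3 w2 := by
        have : w2 = a 4 + s := by rw [e4]; ring
        rw [this]
        exact (ha1 4).add hZ bs
      have b1 : HB Z 8 w1 := by
        have : w1 = a 3 + s * w2 - q := by rw [e3]; ring
        rw [this]
        exact (((ha1 3).add hZ (bs.mul b2)).sub hZ bq).mono hZ' (by omega)
      have b0 : HB Z 6 w0 := by
        have : w0 = -(-(w0 + q * w2)) - q * w2 := by ring
        rw [this]
        exact (bk.neg.sub hZ (bq.mul b2)).mono hZ' (by omega)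
      have c1 : HB Z 24 v1 := by
        apply hb_of_sq
        have : v1 ^ 2 = (a 2 - w0 + s * w1 - q * w2) * d⁻¹ := by
          rw [e2]
          field_simp
          ring
        rw [this]
        exact (((((ha1 2).sub hZ b0).add hZ (bs.mul b1)).sub hZ (bq.mul b2)).mul hd1.inv).mono hZ'
          (by omega)
      have c0 : HB Z 24 v0 := by
        apply hb_of_sq
        have : v0 ^ 2 = (a 0 - q * w0) * d⁻¹ := by
          rw [e0]
          field_simp
          ring
        rw [this]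
        exact (((ha1 0).sub hZ (bq.mul b0)).mul hd1.inv).mono hZ' (by omega)
      have hVl : V = C (d * v1) * X + C (d * v0) := by
        rw [hV, lin, C_mul, C_mul]
        ring
      refine ⟨⟨by omega, fun i => ?_⟩, ?_, ?_⟩
      · change HB Z 50 (u.coeff i)
        rcases i with _ | _ | _ | i
        · rw [hu, (coeff_qu s q).2]
          exact bq.mono hZ' (by omega)
        · rw [hu, zero_add, (coeff_qu s q).1]
          exact bs.neg.mono hZ' (by omega)
        · have : u.coeff 2 = 1 := by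
            rw [← hu2]
            exact hM.monic
          rw [zero_add, this]
          exact HB.one hZ' _
        · rw [coeff_eq_zero_of_natDegree_lt (by omega)]
          exact HB.zero hZ' _
      · rw [hVl]
        exact pb_linear hZ' (by omega) ((hd1.mul c1).mono hZ' (by omega))
          ((hd1.mul c0).mono hZ' (by omega))
      · rw [hVl]
        exact natDegree_linear_le
  obtain ⟨uB, VB, hV1⟩ := uvB
  obtain ⟨T, TB, u3B, hTV, hT3, hT5⟩ := hM1 K Z hZ g u V gB uB VB hM.monic hu2 hV1 hcop hM.dvd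
  obtain ⟨U1, V1, hU1m, hV1lt, hU1d, hS1, U1B, V1B, hdeg1⟩ := hM2 K Z hZ g (u ^ 3) T hg5
    (pb_mono hZ' gB (by omega)) (pb_mono hZ' u3B (by omega)) (pb_mono hZ' TB (by omega))
    (hM.monic.pow 3) hT3
  rw [MI_cube h2 hcop hTV hT3] at hS1
  have hd1' : U1.natDegree ≤ 4 := by
    have e1 : (u ^ 3).natDegree = 6 := by rw [natDegree_pow, hu2]
    have e2 : (g - T ^ 2).natDegree ≤ 10 := by
      refine (natDegree_sub_le _ _).trans ?_
      rw [natDegree_pow]
      omega
    omega
  have fin : ∀ U' V' : K[X], PB Z (M2 + M3) U' → PB Z (M2 + M3) V' →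
      Height.logHeight (kc a d U' V') ≤ ((400 * (M2 + M3 + 1) : ℕ) : ℝ) * h +
        ((400 * (M2 + M3 + 1) : ℕ) : ℝ) * C0 := by
    intro U' V' hU' hV'
    have := kc_bound (M2 + M3) hZ ha1 hd1 hU' hV'
    rw [← mul_add, ← hZd]
    exact this
  by_cases hc : U1.natDegree ≤ 2
  · exact ⟨U1, V1, ⟨hU1m, hc, hV1lt, hU1d⟩, hS1, fin U1 V1 (pb_mono hZ' U1B (by omega))
      (pb_mono hZ' V1B (by omega))⟩
  · obtain ⟨U2, V2, hU2m, hV2lt, hU2d, hS2, U2B, V2B, hdeg2⟩ := hM3 K Z hZ g U1 V1 hg5
      (pb_mono hZ' gB (by omega)) (pb_mono hZ' U1B (by omega)) (pb_mono hZ' V1B (by omega))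
      hU1m hU1d
    have hv : V1.natDegree < U1.natDegree := by
      by_cases h0 : V1 = 0
      · rw [h0, natDegree_zero]
        omega
      · exact natDegree_lt_natDegree h0 hV1lt
    have hd2' : U2.natDegree ≤ 2 := by
      have e2 : (g - V1 ^ 2).natDegree ≤ max 5 (2 * V1.natDegree) := by
        refine (natDegree_sub_le _ _).trans ?_
        rw [natDegree_pow, hg5]
      rcases le_total 5 (2 * V1.natDegree) with h5 | h5
      · rw [max_eq_right h5] at e2
        omega
      · rw [max_eq_left h5] at e2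
        omega
    exact ⟨U2, V2, ⟨hU2m, hd2', hV2lt, hU2d⟩, hS2.trans hS1, fin U2 V2
      (pb_mono hZ' U2B (by omega)) (pb_mono hZ' V2B (by omega))⟩

end Run7.h136.G3
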