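import Pool.Agent.Run7.h929.G3.Iface

/-!
# The calculus of heights for polynomials of bounded degree
-/

set_option autoImplicit false

namespace Run7.h136.G3

open Polynomial Run7.h929.G2 Run7.h929.G3

section
variable {K : Type} [Field K] [NumberField K] {Z : ℝ}

/-- bounded height of a number -/
def HB (Z : ℝ) (n : ℕ) (x : K) : Prop := Height.logHeight₁ x ≤ n * Z

theorem hZ0 (hZ : Real.log 2 * Module.finrank ℚ K ≤ Z) : 0 ≤ Z :=
  le_trans (mul_nonneg (Real.log_nonneg (by norm_num)) (Nat.cast_nonneg _)) hZ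

theorem HB.mono {x : K} {m n : ℕ} (hZ : 0 ≤ Z) (h : HB Z m x) (hmn : m ≤ n) : HB Z n x :=
  le_trans h (mul_le_mul_of_nonneg_right (by exact_mod_cast hmn) hZ)

theorem HB.zero (hZ : 0 ≤ Z) (n : ℕ) : HB Z n (0 : K) := by
  rw [HB, Height.logHeight₁_zero]
  exact mul_nonneg (Nat.cast_nonneg _) hZ

theorem HB.one (hZ : 0 ≤ Z) (n : ℕ) : HB Z n (1 : K) := by
  rw [HB, Height.logHeight₁_one]
  exact mul_nonneg (Nat.cast_nonneg _) hZ

theorem HB.neg {x : K} {n : ℕ} (h : HB Z n x) : HB Z n (-x) := by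
  rw [HB, Height.logHeight₁_neg]
  exact h

theorem HB.inv {x : K} {n : ℕ} (h : HB Z n x) : HB Z n (x⁻¹) := by
  rw [HB, Height.logHeight₁_inv]
  exact h

theorem HB.mul {x y : K} {m n : ℕ} (h : HB Z m x) (h' : HB Z n y) : HB Z (m + n) (x * y) := by
  refine (Height.logHeight₁_mul_le x y).trans ?_
  rw [HB] at h h'
  push_cast
  linarith

theorem HB.add (hZ : Real.log 2 * Module.finrank ℚ K ≤ Z) {x y : K} {m n : ℕ} (h : HB Z m x)
    (h' : HB Z n y) : HB Z (m + n + 1) (x + y) := by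
  refine (Height.logHeight₁_add_le x y).trans ?_
  rw [HB] at h h'
  rw [NumberField.totalWeight_eq_finrank]
  push_cast
  linarith

theorem HB.sub (hZ : Real.log 2 * Module.finrank ℚ K ≤ Z) {x y : K} {m n : ℕ} (h : HB Z m x)
    (h' : HB Z n y) : HB Z (m + n + 1) (x - y) := by
  rw [sub_eq_add_neg]
  exact h.add hZ h'.neg

theorem HB.sum (hZ : Real.log 2 * Module.finrank ℚ K ≤ Z) {ι : Type} (s : Finset ι) (f : ι → K)
    {c n : ℕ} (hc : s.card ≤ c) (h : ∀ i ∈ s, HB Z n (f i)) : HB Z (c * (n + 1)) (∑ i ∈ s, f i) := by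
  classical
  have hZ' := hZ0 hZ
  have key : ∀ s : Finset ι, (∀ i ∈ s, HB Z n (f i)) → HB Z (s.card * (n + 1)) (∑ i ∈ s, f i) := by
    intro s
    induction s using Finset.induction_on with
    | empty => intro _; simpa using HB.zero hZ' 0
    | insert a s ha ih =>
      intro hs
      rw [Finset.sum_insert ha, Finset.card_insert_of_notMem ha]
      have h1 := (hs a (Finset.mem_insert_self _ _)).add hZ
        (ih fun i hi => hs i (Finset.mem_insert_of_mem hi))
      exact h1.mono hZ' (by nlinarith)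
  exact (key s h).mono hZ' (Nat.mul_le_mul_right _ hc)

theorem pb_mono (hZ : 0 ≤ Z) {p : K[X]} {M N : ℕ} (h : PB Z M p) (hMN : M ≤ N) : PB Z N p :=
  ⟨h.1.trans hMN, fun i => HB.mono hZ (h.2 i) hMN⟩

theorem pb_zero (hZ : 0 ≤ Z) (N : ℕ) : PB Z N (0 : K[X]) :=
  ⟨by simp, fun i => by rw [coeff_zero]; exact HB.zero (K := K) hZ N⟩

theorem pb_neg {p : K[X]} {N : ℕ} (h : PB Z N p) : PB Z N (-p) :=
  ⟨by rw [natDegree_neg]; exact h.1, fun i => by rw [coeff_neg]; exact HB.neg (h.2 i)⟩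

theorem pb_add (hZ : Real.log 2 * Module.finrank ℚ K ≤ Z) {p q : K[X]} {M N : ℕ} (h : PB Z M p)
    (h' : PB Z N q) : PB Z (M + N + 1) (p + q) := by
  refine ⟨(natDegree_add_le _ _).trans ?_, fun i => ?_⟩
  · have := h.1
    have := h'.1
    omega
  · rw [coeff_add]
    exact HB.add hZ (h.2 i) (h'.2 i)

theorem pb_sub (hZ : Real.log 2 * Module.finrank ℚ K ≤ Z) {p q : K[X]} {M N : ℕ} (h : PB Z M p)
    (h' : PB Z N q) : PB Z (M + N + 1) (p - q) := by
  rw [sub_eq_add_neg]
  exact pb_add hZ h (pb_neg h')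

theorem pb_mul (hZ : Real.log 2 * Module.finrank ℚ K ≤ Z) {p q : K[X]} {M N : ℕ} (h : PB Z M p)
    (h' : PB Z N q) : PB Z ((M + N + 1) * (M + N + 1)) (p * q) := by
  have hd : (p * q).natDegree ≤ M + N :=
    natDegree_mul_le.trans (add_le_add h.1 h'.1)
  refine ⟨hd.trans (by nlinarith), fun i => ?_⟩
  by_cases hi : i ≤ M + N
  · rw [coeff_mul]
    refine HB.sum hZ _ _ ?_ fun v _ => ?_
    · rw [Finset.Nat.card_antidiagonal]
      omega
    · exact HB.mul (h.2 v.1) (h'.2 v.2)
  · rw [coeff_eq_zero_of_natDegree_lt (by omega)]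
    exact HB.zero (hZ0 hZ) _

theorem pb_C_mul {p : K[X]} {M N : ℕ} {c : K} (h : PB Z M p) (hc : HB Z N c) :
    PB Z (N + M) (C c * p) := by
  refine ⟨(natDegree_C_mul_le c p).trans (h.1.trans (by omega)), fun i => ?_⟩
  rw [coeff_C_mul]
  exact hc.mul (h.2 i)

theorem pb_mul_X_pow {p : K[X]} {N : ℕ} (hZ : 0 ≤ Z) (h : PB Z N p) (k : ℕ) :
    PB Z (N + k) (p * X ^ k) := by
  refine ⟨natDegree_mul_le.trans (add_le_add h.1 (natDegree_X_pow_le k)), fun i => ?_⟩
  rw [coeff_mul_X_pow']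
  split_ifs
  · exact HB.mono hZ (h.2 _) (by omega)
  · exact HB.zero hZ _

theorem pb_linear (hZ : 0 ≤ Z) {b c : K} {n : ℕ} (hn : 1 ≤ n) (hb : HB Z n b) (hc : HB Z n c) :
    PB Z n (C b * X + C c) := by
  refine ⟨(natDegree_linear_le).trans hn, fun i => ?_⟩
  rcases i with _ | _ | i
  · have : (C b * X + C c : K[X]).coeff 0 = c := by simp
    rw [this]
    exact hc
  · have : (C b * X + C c : K[X]).coeff (0 + 1) = b := by simp
    rw [this]
    exact hb
  · have : (C b * X + C c : K[X]).coeff (i + 1 + 1) = 0 :=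
      coeff_eq_zero_of_natDegree_lt (lt_of_le_of_lt natDegree_linear_le (by omega))
    rw [this]
    exact HB.zero hZ _

end

/-- the bound for the division with remainder -/
theorem div_bound (n : ℕ) : ∀ N : ℕ, ∃ M : ℕ, ∀ (K : Type) [Field K] [NumberField K] (Z : ℝ),
    Real.log 2 * Module.finrank ℚ K ≤ Z → ∀ p q : K[X], p.degree < n → PB Z N p → PB Z N q →
      q.Monic → PB Z M (p /ₘ q) ∧ PB Z M (p %ₘ q) := by
  induction n with
  | zero =>
    intro N
    refine ⟨0, fun K _ _ Z hZ p q hp _ _ _ => ?_⟩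
    have hp0 : p = 0 := by
      rw [← degree_eq_bot]
      by_contra hne
      have h5 : p ≠ 0 := fun h => hne (by rw [h, degree_zero])
      rw [degree_eq_natDegree h5] at hp
      have : p.natDegree < 0 := by exact_mod_cast hp
      omega
    rw [hp0, zero_divByMonic, zero_modByMonic]
    exact ⟨pb_zero (hZ0 hZ) _, pb_zero (hZ0 hZ) _⟩
  | succ n ih =>
    intro N
    obtain ⟨M, hM⟩ := ih (N + (N + (N + N)) + 1)
    refine ⟨N + M + (N + N) + 1, fun K _ _ Z hZ p q hp hpN hqN hq => ?_⟩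
    have hZ' := hZ0 hZ
    by_cases hlt : p.degree < q.degree
    · rw [(divByMonic_eq_zero_iff hq).2 hlt, (modByMonic_eq_self_iff hq).2 hlt]
      exact ⟨pb_zero hZ' _, pb_mono hZ' hpN (by omega)⟩
    · have hle : q.degree ≤ p.degree := not_lt.1 hlt
      have hp0 : p ≠ 0 := by
        rintro rfl
        rw [degree_zero, le_bot_iff, degree_eq_bot] at hle
        exact hq.ne_zero hle
      set k := p.natDegree - q.natDegree with hk
      set t : K[X] := C p.leadingCoeff * X ^ k with ht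
      set p1 := p - q * t with hp1
      have hkN : k ≤ N := by
        have := hpN.1
        omega
      have hlc : HB Z N p.leadingCoeff := hpN.2 _
      have htB : PB Z (N + N) t := by
        have h1 : PB Z N (C p.leadingCoeff : K[X]) := by
          refine ⟨by simp, fun i => ?_⟩
          rw [coeff_C]
          split_ifs
          · exact hlc
          · exact HB.zero hZ' _
        exact pb_mono hZ' (pb_mul_X_pow hZ' h1 k) (by omega)
      have hqt : PB Z (N + (N + N)) (q * t) := by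
        have h1 : q * t = C p.leadingCoeff * q * X ^ k := by
          rw [ht]
          ring
        rw [h1]
        exact pb_mono hZ' (pb_mul_X_pow hZ' (pb_C_mul hqN hlc) k) (by omega)
      have hp1B : PB Z (N + (N + (N + N)) + 1) p1 := pb_sub hZ hpN hqt
      have hdeg : p1.degree < p.degree := by
        have := div_wf_lemma ⟨hle, hp0⟩ hq
        rw [hp1, ht, hk]
        exact this
      have hdeg1 : p1.degree < n := by
        have h1 : p.natDegree < n + 1 := by
          rw [degree_eq_natDegree hp0] at hp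
          exact_mod_cast hp
        rw [degree_eq_natDegree hp0] at hdeg
        refine hdeg.trans_le ?_
        exact_mod_cast Nat.lt_succ_iff.1 h1
      obtain ⟨h1, h2⟩ := hM K Z hZ p1 q hdeg1 hp1B
        (pb_mono hZ' hqN (by omega)) hq
      have huniq := div_modByMonic_unique (f := p) (t + p1 /ₘ q) (p1 %ₘ q) hq
        ⟨by
          have := modByMonic_add_div p1 q
          rw [mul_add]
          calc p1 %ₘ q + (q * t + q * (p1 /ₘ q)) = (p1 %ₘ q + q * (p1 /ₘ q)) + q * t := by ring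
            _ = p1 + q * t := by rw [this]
            _ = p := by rw [hp1]; ring, degree_modByMonic_lt _ hq⟩
      rw [huniq.1, huniq.2]
      exact ⟨pb_mono hZ' (pb_add hZ htB h1) (by omega), pb_mono hZ' h2 (by omega)⟩

/-- the inverse modulo a quadratic polynomial -/
theorem inv_quad {K : Type} [Field K] {q p : K[X]} (hq : q.Monic) (h2 : q.natDegree = 2)
    (hc : IsCoprime q p) {r1 r0 : K} (hr : p %ₘ q = C r1 * X + C r0) :
    r0 ^ 2 - q.coeff 1 * r0 * r1 + q.coeff 0 * r1 ^ 2 ≠ 0 ∧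
      q ∣ (C (r0 ^ 2 - q.coeff 1 * r0 * r1 + q.coeff 0 * r1 ^ 2)⁻¹ *
        (C (-r1) * X + C (r0 - q.coeff 1 * r1))) * p - 1 := by
  set R := r0 ^ 2 - q.coeff 1 * r0 * r1 + q.coeff 0 * r1 ^ 2 with hR
  have hqe : q = X ^ 2 + C (q.coeff 1) * X + C (q.coeff 0) := by
    have := hq.as_sum
    rw [h2] at this
    conv_lhs => rw [this]
    simp only [Finset.sum_range_succ, Finset.sum_range_zero]
    ring
  set l : K[X] := C (-r1) * X + C (r0 - q.coeff 1 * r1) with hl
  have hdp : q ∣ p - (C r1 * X + C r0) := by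
    rw [← hr]
    have := modByMonic_add_div p q
    exact ⟨p /ₘ q, by linear_combination -this⟩
  have hlr : q ∣ l * (C r1 * X + C r0) - C R := by
    refine ⟨-C (r1 ^ 2), ?_⟩
    conv_rhs => rw [hqe]
    rw [hl, hR]
    simp only [C_sub, C_mul, C_add, C_pow, C_neg]
    ring
  have hlp : q ∣ l * p - C R := by
    have h1 : l * p - C R = l * (p - (C r1 * X + C r0)) + (l * (C r1 * X + C r0) - C R) := by ring
    rw [h1]
    exact dvd_add (dvd_mul_of_dvd_right hdp _) hlr
  have hlt : ∀ b c : K, (C b * X + C c : K[X]).degree < q.degree := by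
    intro b c
    rw [degree_eq_natDegree hq.ne_zero, h2]
    exact (degree_linear_le).trans_lt (by norm_num)
  have hR0 : R ≠ 0 := by
    intro h0
    rw [h0, C_0, sub_zero] at hlp
    have h3 : q ∣ l := hc.dvd_of_dvd_mul_right hlp
    have h4 : l = 0 := eq_zero_of_dvd_of_degree_lt h3 (hlt _ _)
    have h5 : -r1 = 0 := by
      have := congrArg (fun f => coeff f 1) h4
      simpa [hl, coeff_X, coeff_C] using this
    have h6 : r0 - q.coeff 1 * r1 = 0 := by
      have := congrArg (fun f => coeff f 0) h4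
      simpa [hl, coeff_X, coeff_C] using this
    have h7 : r1 = 0 := neg_eq_zero.1 h5
    have h8 : r0 = 0 := by
      rw [h7, mul_zero, sub_zero] at h6
      exact h6
    rw [h7, h8, C_0, zero_mul, zero_add, sub_zero] at hdp
    have h9 : IsUnit q := hc.isUnit_of_dvd' dvd_rfl hdp
    have := natDegree_eq_zero_of_isUnit h9
    omega
  refine ⟨hR0, ?_⟩
  have h1 : C R⁻¹ * l * p - 1 = C R⁻¹ * (l * p - C R) := by
    have : (C R⁻¹ * C R : K[X]) = 1 := by rw [← C_mul, inv_mul_cancel₀ hR0, C_1]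
    linear_combination this
  rw [h1]
  exact dvd_mul_of_dvd_right hlp _

theorem calcS : S_calc := by
  intro N
  obtain ⟨M, hM⟩ := div_bound (N + 1) N
  have hW : M + N + 1 ≤ (M + N + 1) * (M + N + 1) := Nat.le_mul_self _
  refine ⟨100 * ((M + N + 1) * (M + N + 1)), by omega, ?_⟩
  intro K _ _ Z hZ p q hp hq
  have hZ' := hZ0 hZ
  have hdiv : q.Monic → PB Z M (p /ₘ q) ∧ PB Z M (p %ₘ q) := fun hqm =>
    hM K Z hZ p q (lt_of_le_of_lt degree_le_natDegree
      (by exact_mod_cast Nat.lt_succ_iff.2 hp.1)) hp hq hqm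
  have hMN : M ≤ 100 * ((M + N + 1) * (M + N + 1)) := by omega
  refine ⟨pb_mono hZ' (pb_add hZ hp hq) (by omega), pb_mono hZ' (pb_mul hZ hp hq) ?_,
    pb_mono hZ' (pb_neg hp) (by omega), ?_, ?_, ?_⟩
  · have : (N + N + 1) * (N + N + 1) ≤ 4 * ((M + N + 1) * (M + N + 1)) := by nlinarith
    omega
  · exact pb_mono hZ' (pb_C_mul hp (HB.inv (hq.2 q.natDegree))) (by omega)
  · intro hqm
    exact ⟨pb_mono hZ' (hdiv hqm).1 hMN, pb_mono hZ' (hdiv hqm).2 hMN⟩
  · intro hqm h2 hcop
    have hr : p %ₘ q = C ((p %ₘ q).coeff 1) * X + C ((p %ₘ q).coeff 0) := by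
      apply eq_X_add_C_of_natDegree_le_one
      have h3 : (p %ₘ q).degree < q.degree := degree_modByMonic_lt _ hqm
      by_cases h5 : p %ₘ q = 0
      · rw [h5]
        simp
      · rw [degree_eq_natDegree h5, degree_eq_natDegree hqm.ne_zero, h2] at h3
        have : (p %ₘ q).natDegree < 2 := by exact_mod_cast h3
        omega
    obtain ⟨hR0, hd⟩ := inv_quad hqm h2 hcop hr
    set r1 := (p %ₘ q).coeff 1 with hr1
    set r0 := (p %ₘ q).coeff 0 with hr0
    have b1 : HB Z M r1 := (hdiv hqm).2.2 1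
    have b0 : HB Z M r0 := (hdiv hqm).2.2 0
    have c1 : HB Z N (q.coeff 1) := hq.2 1
    have c0 : HB Z N (q.coeff 0) := hq.2 0
    have hRb : HB Z ((M + M) + ((N + M) + M) + 1 + (N + (M + M)) + 1)
        (r0 ^ 2 - q.coeff 1 * r0 * r1 + q.coeff 0 * r1 ^ 2) := by
      rw [pow_two, pow_two]
      exact (((b0.mul b0).sub hZ ((c1.mul b0).mul b1)).add hZ (c0.mul (b1.mul b1)))
    have hl : PB Z (M + (N + M) + 1) (C (-r1) * X + C (r0 - q.coeff 1 * r1)) := by
      apply pb_linear hZ' (by omega)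
      · exact b1.neg.mono hZ' (by omega)
      · exact b0.sub hZ (c1.mul b1)
    refine ⟨_, ?_, hd⟩
    exact pb_mono hZ' (pb_C_mul hl hRb.inv) (by omega)

end Run7.h136.G3
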